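import Mathlib
import Pool.Agent.Q15.IZDefs
import Pool.Agent.Q15.IZMain

namespace Pool.Agent.Results.MP_5bed1d_al.ZMJoinPrime

open Q15IZ

/-- If `ZM ⊄ X` and `ZM ⊄ Y` then `ZM ⊄ X ∨ Y`; moreover the varieties not containing `ZM` are
exactly the subvarieties of the variety defined by `x'' ≈ x`. -/
theorem result :
    (∀ X Y : Variety, ¬ ZM ≤ X → ¬ ZM ≤ Y → ¬ ZM ≤ X ⊔ Y) ∧
    (∀ X : Variety, ¬ ZM ≤ X ↔ X ≤ I20) := by
  refine ⟨?_, not_zm_le_iff⟩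
  intro X Y hX hY
  rw [not_zm_le_iff] at *
  exact sup_le hX hY

end Pool.Agent.Results.MP_5bed1d_al.ZMJoinPrime
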